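import Mathlib

set_option autoImplicit false

namespace Pool.Agent.Results.MP_6251d3_co.ObtuseCubic

open EuclideanGeometry Real

/-- Euclidean six-space. -/
abbrev E6 := EuclideanSpace ℝ (Fin 6)

/-- The number of ordered triples `(X, Y, Z)` of distinct points of `S` with `∠ X Y Z = α`. -/
noncomputable def angleCount (α : ℝ) (S : Finset E6) : ℕ :=
  Set.ncard {p : E6 × E6 × E6 | p.1 ∈ S ∧ p.2.1 ∈ S ∧ p.2.2 ∈ S ∧
    p.1 ≠ p.2.1 ∧ p.2.1 ≠ p.2.2 ∧ p.1 ≠ p.2.2 ∧ ∠ p.1 p.2.1 p.2.2 = α}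

/-- `N` is the maximum `B_6(n, α)` of `angleCount α S` over all `n`-point sets `S` of `ℝ⁶`. -/
def IsMaxCount (n : ℕ) (α : ℝ) (N : ℕ) : Prop :=
  IsGreatest {k : ℕ | ∃ S : Finset E6, S.card = n ∧ angleCount α S = k} N

theorem angleCount_le (α : ℝ) (S : Finset E6) : angleCount α S ≤ S.card ^ 3 := by
  unfold angleCount
  have h : {p : E6 × E6 × E6 | p.1 ∈ S ∧ p.2.1 ∈ S ∧ p.2.2 ∈ S ∧
    p.1 ≠ p.2.1 ∧ p.2.1 ≠ p.2.2 ∧ p.1 ≠ p.2.2 ∧ ∠ p.1 p.2.1 p.2.2 = α} ⊆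
      ((S ×ˢ S ×ˢ S : Finset (E6 × E6 × E6)) : Set (E6 × E6 × E6)) := by
    rintro ⟨X, Y, Z⟩ ⟨h1, h2, h3, -⟩
    simp only [Finset.coe_product, Set.mem_prod, Finset.mem_coe]
    exact ⟨h1, h2, h3⟩
  refine (Set.ncard_le_ncard h (Finset.finite_toSet _)).trans ?_
  rw [Set.ncard_coe_finset, Finset.card_product, Finset.card_product]
  exact le_of_eq (by ring)

/-- the first family of points -/
noncomputable def ptX (r b : ℝ) : E6 := !₂[√(r ^ 2 - b ^ 2), b, 0, 0, -1, 0]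
/-- the third family of points -/
noncomputable def ptZ (r b : ℝ) : E6 := !₂[0, 0, √(r ^ 2 - b ^ 2), b, 1, 0]
/-- the family of the vertices of the angles -/
noncomputable def ptY (u v : ℝ) : E6 := !₂[0, 0, 0, 0, u, v]

theorem inner_pts (r b b' u v : ℝ) :
    inner ℝ (ptX r b - ptY u v) (ptZ r b' - ptY u v) = u ^ 2 + v ^ 2 - 1 := by
  simp only [ptX, ptY, ptZ, PiLp.inner_apply, Fin.sum_univ_six, PiLp.sub_apply]
  simp
  ring

theorem norm_X (r b u v : ℝ) (h : b ^ 2 ≤ r ^ 2) :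
    ‖ptX r b - ptY u v‖ ^ 2 = r ^ 2 + 1 + 2 * u + (u ^ 2 + v ^ 2) := by
  rw [EuclideanSpace.norm_sq_eq]
  simp only [ptX, ptY, Fin.sum_univ_six, PiLp.sub_apply]
  simp
  rw [Real.sq_sqrt (by linarith)]
  ring

theorem norm_Z (r b u v : ℝ) (h : b ^ 2 ≤ r ^ 2) :
    ‖ptZ r b - ptY u v‖ ^ 2 = r ^ 2 + 1 - 2 * u + (u ^ 2 + v ^ 2) := by
  rw [EuclideanSpace.norm_sq_eq]
  simp only [ptZ, ptY, Fin.sum_univ_six, PiLp.sub_apply]
  simp
  rw [Real.sq_sqrt (by linarith)]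
  ring

theorem angle_pts (α r b b' u v : ℝ) (h1 : π / 2 < α) (h2 : α < π) (hb : b ^ 2 ≤ r ^ 2)
    (hb' : b' ^ 2 ≤ r ^ 2) (ht : u ^ 2 + v ^ 2 < 1)
    (hu : (2 * u) ^ 2 = (r ^ 2 + 1 + (u ^ 2 + v ^ 2)) ^ 2 -
      (1 - (u ^ 2 + v ^ 2)) ^ 2 / cos α ^ 2) :
    ∠ (ptX r b) (ptY u v) (ptZ r b') = α := by
  have hc : cos α < 0 := Real.cos_neg_of_pi_div_two_lt_of_lt h1 (by linarith)
  have hc0 : cos α ≠ 0 := hc.ne
  unfold EuclideanGeometry.angle InnerProductGeometry.angle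
  rw [vsub_eq_sub, vsub_eq_sub, inner_pts]
  have hsq : (‖ptX r b - ptY u v‖ * ‖ptZ r b' - ptY u v‖) ^ 2 =
      ((1 - (u ^ 2 + v ^ 2)) / (- cos α)) ^ 2 := by
    rw [mul_pow, norm_X r b u v hb, norm_Z r b' u v hb', div_pow, neg_sq]
    linear_combination -hu
  have hnn : 0 ≤ ‖ptX r b - ptY u v‖ * ‖ptZ r b' - ptY u v‖ := by positivity
  have hnn' : 0 < (1 - (u ^ 2 + v ^ 2)) / (- cos α) := by
    apply div_pos <;> linarith
  have heq : ‖ptX r b - ptY u v‖ * ‖ptZ r b' - ptY u v‖ =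
      (1 - (u ^ 2 + v ^ 2)) / (- cos α) := (pow_left_inj₀ hnn hnn'.le (by norm_num)).1 hsq
  rw [heq]
  have : (u ^ 2 + v ^ 2 - 1) / ((1 - (u ^ 2 + v ^ 2)) / (- cos α)) = cos α := by
    have : 1 - (u ^ 2 + v ^ 2) ≠ 0 := by linarith
    field_simp
    ring
  rw [this]
  exact Real.arccos_cos (by linarith [Real.pi_pos]) h2.le

/-- The three infinite families of points. -/
theorem exists_families (α : ℝ) (h1 : π / 2 < α) (h2 : α < π) :
    ∃ A B C : Set E6, A.Infinite ∧ B.Infinite ∧ C.Infinite ∧ Disjoint A B ∧ Disjoint B C ∧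
      Disjoint A C ∧ ∀ X ∈ A, ∀ Y ∈ B, ∀ Z ∈ C, ∠ X Y Z = α := by
  have hc : cos α < 0 := Real.cos_neg_of_pi_div_two_lt_of_lt h1 (by linarith)
  have hc1 : -1 < cos α := by
    have := Real.cos_lt_cos_of_nonneg_of_le_pi (by linarith [Real.pi_pos]) le_rfl h2
    rwa [Real.cos_pi] at this
  set c := cos α with hcdef
  have hcsq : 0 < c ^ 2 := by nlinarith
  have hcsq1 : c ^ 2 < 1 := by nlinarith
  -- the base value of `t`
  obtain ⟨t₀, ht0, ht1, ht⟩ : ∃ t : ℝ, 0 < t ∧ t < 1 ∧ c ^ 2 * (1 + t ^ 2) < (1 - t) ^ 2 := by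
    refine ⟨(1 - c ^ 2) / 4, by linarith, by linarith, ?_⟩
    nlinarith [mul_pos hcsq (sub_pos.2 hcsq1), mul_pos (mul_pos hcsq (sub_pos.2 hcsq1)) (sub_pos.2 hcsq1)]
  -- the radius
  have hr : (1 + t₀) ^ 2 < (1 - t₀) ^ 2 / c ^ 2 + 2 * t₀ := by
    have : 1 + t₀ ^ 2 < (1 - t₀) ^ 2 / c ^ 2 := by
      rw [lt_div_iff₀ hcsq]; linarith
    nlinarith
  have hr' : 1 + t₀ < √((1 - t₀) ^ 2 / c ^ 2 + 2 * t₀) := by
    apply Real.lt_sqrt_of_sq_lt
    linarith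
  set r := √(√((1 - t₀) ^ 2 / c ^ 2 + 2 * t₀) - (1 + t₀)) with hrdef
  have hr0 : 0 < r := Real.sqrt_pos.2 (by linarith)
  have hr2 : r ^ 2 = √((1 - t₀) ^ 2 / c ^ 2 + 2 * t₀) - (1 + t₀) :=
    Real.sq_sqrt (by linarith)
  have hr3 : (r ^ 2 + 1 + t₀) ^ 2 = (1 - t₀) ^ 2 / c ^ 2 + 2 * t₀ := by
    rw [hr2]
    have : (√((1 - t₀) ^ 2 / c ^ 2 + 2 * t₀) - (1 + t₀) + 1 + t₀) =
      √((1 - t₀) ^ 2 / c ^ 2 + 2 * t₀) := by ring
    rw [this]
    exact Real.sq_sqrt (by positivity)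
  -- the function `f`
  set f : ℝ → ℝ := fun t => ((r ^ 2 + 1 + t) ^ 2 - (1 - t) ^ 2 / c ^ 2) / 4 with hf
  have hfc : Continuous f := by
    rw [hf]
    fun_prop
  have hf0 : f t₀ = t₀ / 2 := by
    simp only [hf]
    rw [hr3]; ring
  have hT : {t : ℝ | 0 < t ∧ t < 1 ∧ 0 < f t ∧ f t < t}.Infinite := by
    have hopen : IsOpen {t : ℝ | 0 < t ∧ t < 1 ∧ 0 < f t ∧ f t < t} := by
      refine (isOpen_lt continuous_const continuous_id).inter
        ((isOpen_lt continuous_id continuous_const).inter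
        ((isOpen_lt continuous_const hfc).inter (isOpen_lt hfc continuous_id)))
    exact infinite_of_mem_nhds t₀ (hopen.mem_nhds ⟨ht0, ht1, by rw [hf0]; linarith,
      by rw [hf0]; linarith⟩)
  have hI : (Set.Icc (0 : ℝ) r).Infinite := Set.Icc_infinite hr0
  refine ⟨ptX r '' Set.Icc 0 r, (fun t => ptY √(f t) √(t - f t)) ''
    {t : ℝ | 0 < t ∧ t < 1 ∧ 0 < f t ∧ f t < t}, ptZ r '' Set.Icc 0 r, ?_, ?_, ?_, ?_, ?_, ?_, ?_⟩
  · refine hI.image ?_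
    intro b _ b' _ h
    have := congrArg (fun p : E6 => p 1) h
    simpa [ptX] using this
  · refine hT.image ?_
    rintro t ⟨-, -, h3, h4⟩ t' ⟨-, -, h3', h4'⟩ h
    have e1 : √(f t) = √(f t') := by
      have := congrArg (fun p : E6 => p 4) h
      simpa [ptY] using this
    have e2 : √(t - f t) = √(t' - f t') := by
      have := congrArg (fun p : E6 => p 5) h
      simpa [ptY] using this
    have e3 : f t = f t' := by
      rw [← Real.sq_sqrt h3.le, ← Real.sq_sqrt h3'.le, e1]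
    have e4 : t - f t = t' - f t' := by
      rw [← Real.sq_sqrt (sub_pos.2 h4).le, ← Real.sq_sqrt (sub_pos.2 h4').le, e2]
    linarith
  · refine hI.image ?_
    intro b _ b' _ h
    have := congrArg (fun p : E6 => p 3) h
    simpa [ptZ] using this
  · rw [Set.disjoint_left]
    rintro _ ⟨b, -, rfl⟩ ⟨t, -, h⟩
    have := congrArg (fun p : E6 => p 4) h
    simp [ptX, ptY] at this
    linarith [Real.sqrt_nonneg (f t)]
  · rw [Set.disjoint_left]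
    rintro _ ⟨t, ⟨h1, h2, h3, h4⟩, rfl⟩ ⟨b, -, h⟩
    have := congrArg (fun p : E6 => p 4) h
    simp [ptZ, ptY] at this
    have h5 : f t = 1 := by
      rw [← Real.sq_sqrt h3.le, ← this]; norm_num
    linarith
  · rw [Set.disjoint_left]
    rintro _ ⟨b, -, rfl⟩ ⟨b', -, h⟩
    have := congrArg (fun p : E6 => p 4) h
    simp [ptX, ptZ] at this
    linarith
  · rintro _ ⟨b, hb, rfl⟩ _ ⟨t, ⟨h1', h2', h3, h4⟩, rfl⟩ _ ⟨b', hb', rfl⟩
    have e : √(f t) ^ 2 + √(t - f t) ^ 2 = t := by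
      rw [Real.sq_sqrt h3.le, Real.sq_sqrt (sub_pos.2 h4).le]; ring
    apply angle_pts α r b b' _ _ h1 h2
    · exact pow_le_pow_left₀ hb.1 hb.2 2
    · exact pow_le_pow_left₀ hb'.1 hb'.2 2
    · rw [e]; exact h2'
    · rw [e, mul_pow, Real.sq_sqrt h3.le]
      simp only [hf]
      ring

/-- many angles from three families -/
theorem exists_config (α : ℝ) (h1 : π / 2 < α) (h2 : α < π) (a b c d : ℕ) :
    ∃ S : Finset E6, S.card = a + b + c + d ∧ 2 * (a * b * c) ≤ angleCount α S := by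
  classical
  obtain ⟨A, B, C, hA, hB, hC, hAB, hBC, hAC, H⟩ := exists_families α h1 h2
  obtain ⟨SA, hSA, hSAc⟩ := hA.exists_subset_card_eq a
  obtain ⟨SB, hSB, hSBc⟩ := hB.exists_subset_card_eq b
  obtain ⟨SC, hSC, hSCc⟩ := hC.exists_subset_card_eq c
  have dAB : Disjoint SA SB := by
    rw [Finset.disjoint_left]
    intro x h h'
    exact Set.disjoint_left.1 hAB (hSA h) (hSB h')
  have dBC : Disjoint SB SC := by
    rw [Finset.disjoint_left]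
    intro x h h'
    exact Set.disjoint_left.1 hBC (hSB h) (hSC h')
  have dAC : Disjoint SA SC := by
    rw [Finset.disjoint_left]
    intro x h h'
    exact Set.disjoint_left.1 hAC (hSA h) (hSC h')
  set S0 := SA ∪ SB ∪ SC with hS0
  have hcard : S0.card = a + b + c := by
    rw [hS0, Finset.card_union_of_disjoint, Finset.card_union_of_disjoint dAB, hSAc, hSBc, hSCc]
    rw [Finset.disjoint_union_left]
    exact ⟨dAC, dBC⟩
  obtain ⟨S, hS, hSc⟩ := Infinite.exists_superset_card_eq S0 (a + b + c + d) (by omega)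
  refine ⟨S, hSc, ?_⟩
  have hSA' : ∀ x ∈ SA, x ∈ S := fun x hx => hS (by simp [hS0, hx])
  have hSB' : ∀ x ∈ SB, x ∈ S := fun x hx => hS (by simp [hS0, hx])
  have hSC' : ∀ x ∈ SC, x ∈ S := fun x hx => hS (by simp [hS0, hx])
  have hne1 : ∀ x ∈ SA, ∀ y ∈ SB, x ≠ y := by
    rintro x hx y hy rfl; exact Finset.disjoint_left.1 dAB hx hy
  have hne2 : ∀ x ∈ SB, ∀ y ∈ SC, x ≠ y := by
    rintro x hx y hy rfl; exact Finset.disjoint_left.1 dBC hx hy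
  have hne3 : ∀ x ∈ SA, ∀ y ∈ SC, x ≠ y := by
    rintro x hx y hy rfl; exact Finset.disjoint_left.1 dAC hx hy
  have hsub : ((SA ×ˢ SB ×ˢ SC ∪ SC ×ˢ SB ×ˢ SA : Finset (E6 × E6 × E6)) :
      Set (E6 × E6 × E6)) ⊆ {p : E6 × E6 × E6 | p.1 ∈ S ∧ p.2.1 ∈ S ∧ p.2.2 ∈ S ∧
    p.1 ≠ p.2.1 ∧ p.2.1 ≠ p.2.2 ∧ p.1 ≠ p.2.2 ∧ ∠ p.1 p.2.1 p.2.2 = α} := by
    rintro ⟨X, Y, Z⟩ h
    rw [Finset.mem_coe, Finset.mem_union, Finset.mem_product, Finset.mem_product,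
      Finset.mem_product, Finset.mem_product] at h
    rcases h with ⟨hX, hY, hZ⟩ | ⟨hX, hY, hZ⟩
    · exact ⟨hSA' _ hX, hSB' _ hY, hSC' _ hZ, hne1 _ hX _ hY, hne2 _ hY _ hZ, hne3 _ hX _ hZ,
        H _ (hSA hX) _ (hSB hY) _ (hSC hZ)⟩
    · refine ⟨hSC' _ hX, hSB' _ hY, hSA' _ hZ, (hne2 _ hY _ hX).symm, (hne1 _ hZ _ hY).symm,
        (hne3 _ hZ _ hX).symm, ?_⟩
      rw [EuclideanGeometry.angle_comm]
      exact H _ (hSA hZ) _ (hSB hY) _ (hSC hX)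
  have hfin : {p : E6 × E6 × E6 | p.1 ∈ S ∧ p.2.1 ∈ S ∧ p.2.2 ∈ S ∧
    p.1 ≠ p.2.1 ∧ p.2.1 ≠ p.2.2 ∧ p.1 ≠ p.2.2 ∧ ∠ p.1 p.2.1 p.2.2 = α}.Finite := by
    refine (Finset.finite_toSet (S ×ˢ S ×ˢ S)).subset ?_
    rintro ⟨X, Y, Z⟩ ⟨h1, h2, h3, -⟩
    simp only [Finset.coe_product, Set.mem_prod, Finset.mem_coe]
    exact ⟨h1, h2, h3⟩
  have hle := Set.ncard_le_ncard hsub hfin
  rw [Set.ncard_coe_finset, Finset.card_union_of_disjoint, Finset.card_product,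
    Finset.card_product, Finset.card_product, Finset.card_product, hSAc, hSBc, hSCc] at hle
  · unfold angleCount
    refine le_trans (le_of_eq ?_) hle
    ring
  · rw [Finset.disjoint_left]
    rintro ⟨X, Y, Z⟩ h h'
    rw [Finset.mem_product] at h h'
    exact hne3 _ h.1 _ h'.1 rfl

/-- **Obtuse angles in six-space.** For every fixed obtuse angle `α` the maximum `B_6(n, α)` has
order of magnitude `n³`: `B_6(n, α) ≤ n³` for all `n`, `B_6(3m, α) ≥ 2 m³` for all `m`, and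
`B_6(n, α) ≥ 2 n³ / 125` for all `n ≥ 3`. -/
theorem result : ∀ α : ℝ, π / 2 < α → α < π → ∃ B : ℕ → ℕ, (∀ n, IsMaxCount n α (B n)) ∧
    (∀ n, B n ≤ n ^ 3) ∧ (∀ m, 2 * m ^ 3 ≤ B (3 * m)) ∧
    (∀ n : ℕ, 3 ≤ n → (2 / 125 : ℝ) * (n : ℝ) ^ 3 ≤ B n) := by
  intro α h1 h2
  have hex : ∀ n, ∃ N, IsMaxCount n α N := by
    intro n
    have hne : {k : ℕ | ∃ S : Finset E6, S.card = n ∧ angleCount α S = k}.Nonempty := by
      obtain ⟨S, hS⟩ := Infinite.exists_subset_card_eq E6 n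
      exact ⟨_, S, hS, rfl⟩
    have hbd : BddAbove {k : ℕ | ∃ S : Finset E6, S.card = n ∧ angleCount α S = k} := by
      refine ⟨n ^ 3, ?_⟩
      rintro k ⟨S, hS, rfl⟩
      rw [← hS]
      exact angleCount_le α S
    exact ⟨_, Nat.sSup_mem hne hbd, fun k hk => le_csSup hbd hk⟩
  choose B hB using hex
  have key : ∀ a b c d : ℕ, 2 * (a * b * c) ≤ B (a + b + c + d) := by
    intro a b c d
    obtain ⟨S, hS, hle⟩ := exists_config α h1 h2 a b c d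
    exact hle.trans ((hB _).2 ⟨S, hS, rfl⟩)
  refine ⟨B, hB, ?_, ?_, ?_⟩
  · intro n
    obtain ⟨S, hS, hk⟩ := (hB n).1
    rw [← hk, ← hS]
    exact angleCount_le α S
  · intro m
    have := key m m m 0
    have e : m + m + m + 0 = 3 * m := by ring
    rw [e] at this
    refine le_trans (le_of_eq ?_) this
    ring
  · intro n hn
    have := key (n / 3) (n / 3) (n / 3) (n % 3)
    have e : n / 3 + n / 3 + n / 3 + n % 3 = n := by omega
    rw [e] at this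
    have h5 : n ≤ 5 * (n / 3) := by omega
    have h5' : (n : ℝ) ≤ 5 * ((n / 3 : ℕ) : ℝ) := by exact_mod_cast h5
    have h6 : (n : ℝ) ^ 3 ≤ (5 * ((n / 3 : ℕ) : ℝ)) ^ 3 := pow_le_pow_left₀ (by positivity) h5' 3
    have h7 : (2 * (((n / 3 : ℕ) : ℝ) * ((n / 3 : ℕ) : ℝ) * ((n / 3 : ℕ) : ℝ))) ≤ (B n : ℝ) := by
      exact_mod_cast this
    nlinarith

end Pool.Agent.Results.MP_6251d3_co.ObtuseCubic
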